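import Mathlib

namespace Pool.Agent.Results.MP_94066b_nt.TomsContracted

/-- `T(a,b,c)`: the set of integers `x` with `a x mod b ≤ x - c`. -/
def T (a b c : ℕ) : Set ℤ :=
  {x : ℤ | ((a : ℤ) * x) % (b : ℤ) ≤ x - (c : ℤ)}

/-- `S ⊆ ℕ` admits a Toms decomposition: there are positive integers `L`, `q_i`, `m_i`
(`i` in a nonempty finite index set) with `gcd(q_i,m_i) = gcd(L,m_i) = gcd(L,q_i) = 1` such that
`S = {x : L x ∈ ⋂ i, ⟨q_i, m_i⟩}`. -/
def HasTomsDecomposition (S : Set ℕ) : Prop :=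
  ∃ (L n : ℕ) (q m : Fin n → ℕ), 0 < L ∧ 0 < n ∧
    (∀ i, 0 < q i ∧ 0 < m i ∧ Nat.gcd (q i) (m i) = 1 ∧ Nat.gcd L (m i) = 1 ∧
      Nat.gcd L (q i) = 1) ∧
    S = {x : ℕ | L * x ∈ ⋂ i, ((AddSubmonoid.closure {q i, m i} : AddSubmonoid ℕ) : Set ℕ)}

lemma mem_closure_iff (w m N : ℕ) :
    N ∈ AddSubmonoid.closure ({w, m} : Set ℕ) ↔
      ∃ u v : ℤ, 0 ≤ u ∧ 0 ≤ v ∧ u * (w : ℤ) + v * (m : ℤ) = (N : ℤ) := by
  rw [AddSubmonoid.mem_closure_pair]
  constructor
  · rintro ⟨u, v, h⟩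
    refine ⟨u, v, by positivity, by positivity, ?_⟩
    rw [← h]; simp
  · rintro ⟨u, v, hu, hv, h⟩
    lift u to ℕ using hu
    lift v to ℕ using hv
    refine ⟨u, v, ?_⟩
    have : ((u * w + v * m : ℕ) : ℤ) = (N : ℤ) := by push_cast; exact h
    simpa using (by exact_mod_cast this : u * w + v * m = N)

/-- If `e m - f w = L` then `x` with `x f ≤ n m`, `n w ≤ x e` satisfies
`L x ∈ ⟨w, m⟩`. -/
lemma mem_of_interval {e f w m L : ℤ} (hdet : e * m - f * w = L) {x n : ℤ}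
    (h1 : x * f ≤ n * m) (h2 : n * w ≤ x * e) :
    ∃ u v : ℤ, 0 ≤ u ∧ 0 ≤ v ∧ u * w + v * m = L * x := by
  refine ⟨n * m - x * f, x * e - n * w, by linarith, by linarith, ?_⟩
  rw [← hdet]; ring

lemma interval_of_mem {e f w m L : ℤ} (hm : 0 < m) (hdet : e * m - f * w = L)
    (hco : IsCoprime w m) {x u v : ℤ} (hu : 0 ≤ u) (hv : 0 ≤ v) (h : u * w + v * m = L * x) :
    ∃ n : ℤ, x * f ≤ n * m ∧ n * w ≤ x * e := by
  have hdvd : m ∣ (u + x * f) * w := by
    refine ⟨e * x - v, ?_⟩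
    have : u * w = L * x - v * m := by linarith
    calc (u + x * f) * w = u * w + x * f * w := by ring
      _ = (L * x - v * m) + x * f * w := by rw [this]
      _ = m * (e * x - v) := by rw [← hdet]; ring
  have hdvd' : m ∣ (u + x * f) := (hco.symm).dvd_of_dvd_mul_right hdvd
  obtain ⟨n, hn⟩ := hdvd'
  refine ⟨n, by nlinarith, ?_⟩
  have h3 : v * m = (x * e - n * w) * m := by
    have : u = m * n - x * f := by linarith
    subst this
    rw [← hdet] at h
    linarith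
  have h4 : v = x * e - n * w := mul_right_cancel₀ (ne_of_gt hm) h3
  linarith

/-- The integer part of the key construction. -/
lemma key_int (G Q L : ℤ) (hG : 1 ≤ G)
    (hbig : (2 * G * (G + 1)) ^ 3 ≤ L) :
    ∃ w e : ℤ, 0 < w ∧ 2 * w ≤ L ∧
      e * (G * (2 * G * (G + 1))) - (Q * (2 * G * (G + 1)) + 1) * w = L ∧
      L < w * (2 * G * (G + 1) - 1) ∧ w * (2 * G * (G + 1) - 1 - G) ≤ L := by
  obtain ⟨M, hM⟩ : ∃ M : ℤ, M = 2 * G * (G + 1) := ⟨_, rfl⟩
  rw [← hM] at hbig ⊢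
  have hM4 : 4 ≤ M := by rw [hM]; nlinarith
  have hMG : G + 3 ≤ M := by rw [hM]; nlinarith
  obtain ⟨m, hm⟩ : ∃ m : ℤ, m = G * M := ⟨_, rfl⟩
  rw [← hm]
  have hmpos : 0 < m := by rw [hm]; positivity
  have hM1 : 0 < M - 1 := by linarith
  obtain ⟨lo, hlo⟩ : ∃ lo : ℤ, lo = L / (M - 1) := ⟨_, rfl⟩
  have hlo1 : (M - 1) * lo ≤ L := by rw [hlo]; exact Int.mul_ediv_self_le (ne_of_gt hM1)
  have hlo2 : L < (M - 1) * lo + (M - 1) := by
    rw [hlo]; exact Int.lt_mul_ediv_self_add hM1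
  have hLpos : 0 < L := lt_of_lt_of_le (by positivity) hbig
  have hlo0 : 0 ≤ lo := by rw [hlo]; exact Int.ediv_nonneg hLpos.le hM1.le
  obtain ⟨c, hc⟩ : ∃ c : ℤ, c = -L * (1 - Q * M) := ⟨_, rfl⟩
  obtain ⟨w, hw⟩ : ∃ w : ℤ, w = lo + 1 + (c - (lo + 1)) % m := ⟨_, rfl⟩
  have hr0 := Int.emod_nonneg (c - (lo + 1)) (ne_of_gt hmpos)
  have hr1 := Int.emod_lt_of_pos (c - (lo + 1)) hmpos
  have hw1 : lo + 1 ≤ w := by linarith
  have hw2 : w ≤ lo + m := by linarith
  have hwc : m ∣ w - c := by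
    refine ⟨-((c - (lo + 1)) / m), ?_⟩
    have := Int.emod_add_mul_ediv (c - (lo + 1)) m
    rw [hw]; linarith
  have hdvd : m ∣ L + (Q * M + 1) * w := by
    have h1 : L + (Q * M + 1) * w = (Q * M + 1) * (w - c) + L * (Q * M) ^ 2 := by
      rw [hc]; ring
    rw [h1]
    refine dvd_add (Dvd.dvd.mul_left hwc _) ?_
    refine ⟨L * Q ^ 2 * (2 * (G + 1)), ?_⟩
    rw [hm]
    calc L * (Q * M) ^ 2 = L * Q ^ 2 * M * M := by ring
      _ = L * Q ^ 2 * M * (2 * G * (G + 1)) := by rw [← hM]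
      _ = G * M * (L * Q ^ 2 * (2 * (G + 1))) := by ring
  obtain ⟨e, he⟩ := hdvd
  have hwpos : 0 < w := by linarith
  have hA : L < w * (M - 1) := by nlinarith
  have hB : w * (M - 1 - G) ≤ L := by
    have hMG' : 0 < M - 1 - G := by linarith
    -- `(M-1) w ≤ L + (M-1) m`
    have h1 : (M - 1) * w ≤ L + (M - 1) * m := by nlinarith
    have h2 : (M - 1) * (w * (M - 1 - G)) ≤ (L + (M - 1) * m) * (M - 1 - G) := by nlinarith
    have h3 : (M - 1) * M * (M - 1 - G) ≤ L := by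
      refine le_trans ?_ hbig
      have : (M - 1) * M * (M - 1 - G) ≤ M * M * M := by
        have a1 : (M - 1) * M ≤ M * M := by nlinarith
        have a2 : M - 1 - G ≤ M := by linarith
        have a3 : 0 ≤ M * M := by positivity
        nlinarith
      calc (M - 1) * M * (M - 1 - G) ≤ M * M * M := this
        _ = M ^ 3 := by ring
    have h4 : (M - 1) * m * (M - 1 - G) ≤ L * G := by
      rw [hm]
      calc (M - 1) * (G * M) * (M - 1 - G) = ((M - 1) * M * (M - 1 - G)) * G := by ring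
        _ ≤ L * G := by nlinarith
    have h5 : (M - 1) * (w * (M - 1 - G)) ≤ (M - 1) * L := by nlinarith
    exact le_of_mul_le_mul_left h5 hM1
  refine ⟨w, e, hwpos, ?_, by linarith, hA, hB⟩
  nlinarith

lemma excl (G Q M m w e L : ℤ) (hG : 1 ≤ G) (hw : 0 < w) (hm0 : 0 < m)
    (hm : m = G * M) (hdetw : e * m = L + (Q * M + 1) * w) (hA : L < w * (M - 1)) (n : ℤ)
    (hn1 : G * (Q * M + 1) ≤ n * m) (hn2 : n * w ≤ G * e) : False := by
  have h1 : Q < n := by
    by_contra hcon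
    push Not at hcon
    have h2 : n * m ≤ Q * m := mul_le_mul_of_nonneg_right hcon hm0.le
    rw [hm] at h2 hn1
    have h3 : G * (Q * M + 1) = Q * (G * M) + G := by ring
    linarith
  have h3 : (Q + 1) * w ≤ G * e := by
    have : (Q + 1) * w ≤ n * w := mul_le_mul_of_nonneg_right (by linarith) hw.le
    linarith
  have h4 : (Q + 1) * w * m ≤ G * e * m := mul_le_mul_of_nonneg_right h3 hm0.le
  have h4' : G * e * m = G * (L + (Q * M + 1) * w) := by rw [← hdetw]; ring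
  rw [h4', hm] at h4
  have h5 : G * ((Q + 1) * w * M) ≤ G * (L + (Q * M + 1) * w) := by
    have : G * ((Q + 1) * w * M) = (Q + 1) * w * (G * M) := by ring
    linarith
  have h6 : (Q + 1) * w * M ≤ L + (Q * M + 1) * w :=
    le_of_mul_le_mul_left h5 (by linarith)
  have h7 : (Q + 1) * w * M - (Q * M + 1) * w = w * (M - 1) := by ring
  linarith

lemma large (G f M m w e L : ℤ) (hG : 1 ≤ G) (hw : 0 < w) (hm0 : 0 < m)
    (hM : M = 2 * G * (G + 1)) (hL : 0 < L)
    (hm : m = G * M) (hdetw : e * m = L + f * w) (hB : w * (M - 1 - G) ≤ L) (x : ℤ)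
    (hx : G + 1 ≤ x) : ∃ n : ℤ, x * f ≤ n * m ∧ n * w ≤ x * e := by
  obtain ⟨n, hn⟩ : ∃ n : ℤ, n = (x * f + (m - 1)) / m := ⟨_, rfl⟩
  refine ⟨n, ?_, ?_⟩
  · have := Int.lt_mul_ediv_self_add (x := x * f + (m - 1)) hm0
    rw [← hn] at this
    have h2 : m * n = n * m := by ring
    linarith
  · have h1 : n * m ≤ x * f + (m - 1) := by rw [hn]; exact Int.ediv_mul_le _ (ne_of_gt hm0)
    have hL1 : m * w ≤ (G + 1) * L := by
      have a1 : (w * (M - 1 - G)) * (G + 1) ≤ L * (G + 1) :=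
        mul_le_mul_of_nonneg_right hB (by linarith)
      have a2 : G * M ≤ (M - 1 - G) * (G + 1) := by
        have : (M - 1 - G) * (G + 1) - G * M = (G + 1) * (G - 1) := by rw [hM]; ring
        have : 0 ≤ (G + 1) * (G - 1) := mul_nonneg (by linarith) (by linarith)
        linarith
      have a3 : w * (G * M) ≤ w * ((M - 1 - G) * (G + 1)) := mul_le_mul_of_nonneg_left a2 hw.le
      have a4 : w * ((M - 1 - G) * (G + 1)) = (w * (M - 1 - G)) * (G + 1) := by ring
      have a5 : m * w = w * (G * M) := by rw [hm]; ring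
      linarith
    have hL2 : m * w ≤ x * L := by
      have : (G + 1) * L ≤ x * L := mul_le_mul_of_nonneg_right hx hL.le
      linarith
    have h3 : (n * m) * w ≤ (x * f + (m - 1)) * w := mul_le_mul_of_nonneg_right h1 hw.le
    have h2 : n * w * m ≤ x * e * m := by
      have b1 : n * w * m = (n * m) * w := by ring
      have b2 : (x * f + (m - 1)) * w = x * f * w + m * w - w := by ring
      have b3 : x * e * m = x * L + x * f * w := by
        have : x * e * m = x * (e * m) := by ring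
        rw [this, hdetw]; ring
      linarith
    exact le_of_mul_le_mul_right h2 hm0

lemma small (G Q M m w e L : ℤ) (hG : 1 ≤ G) (hw : 0 < w) (hm0 : 0 < m)
    (hM : M = 2 * G * (G + 1))
    (hm : m = G * M) (hdetw : e * m = L + (Q * M + 1) * w) (hB : w * (M - 1 - G) ≤ L) (x k : ℤ)
    (hx0 : 0 ≤ x) (hx : x ≤ G) (hk1 : Q * x < G * k) (hk2 : G * k < (Q + 1) * x) :
    x * (Q * M + 1) ≤ k * m ∧ k * w ≤ x * e := by
  have hM0 : 0 ≤ M := by rw [hM]; positivity
  have hGM : G * G ≤ M := by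
    rw [hM]
    have : 2 * G * (G + 1) - G * G = G * G + 2 * G := by ring
    have : 0 ≤ G * G + 2 * G := by positivity
    linarith
  have hGG : G ≤ G * G := by nlinarith
  constructor
  · have h1 : (Q * x + 1) * M ≤ (G * k) * M := mul_le_mul_of_nonneg_right (by linarith) hM0
    have h2 : k * m = (G * k) * M := by rw [hm]; ring
    have h3 : x * (Q * M + 1) = (Q * x) * M + x := by ring
    have h4 : (Q * x + 1) * M = (Q * x) * M + M := by ring
    linarith
  · have h4 : G * k ≤ (Q + 1) * x - 1 := by linarith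
    have hMw : 0 ≤ M * w := mul_nonneg hM0 hw.le
    have h5 : (G * k) * (M * w) ≤ ((Q + 1) * x - 1) * (M * w) :=
      mul_le_mul_of_nonneg_right h4 hMw
    have h6 : (w * (M - 1 - G)) * x ≤ L * x := mul_le_mul_of_nonneg_right hB hx0
    have h7 : x * G ≤ M := le_trans (mul_le_mul_of_nonneg_right hx (by linarith)) hGM
    have h8 : w * (x * G) ≤ w * M := mul_le_mul_of_nonneg_left h7 hw.le
    have h2 : k * w * m ≤ x * e * m := by
      have c1 : k * w * m = (G * k) * (M * w) := by rw [hm]; ring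
      have c2 : x * e * m = x * (L + (Q * M + 1) * w) := by rw [← hdetw]; ring
      have c3 : ((Q + 1) * x - 1) * (M * w) - x * ((Q * M + 1) * w)
          = (w * (M - 1 - G)) * x + w * (x * G) - w * M := by ring
      have c4 : x * (L + (Q * M + 1) * w) = L * x + x * ((Q * M + 1) * w) := by ring
      linarith
    exact le_of_mul_le_mul_right h2 hm0

/-- The key construction. For a gap `g ≥ 1` and `q ≥ 0` and a large prime `L`. -/
lemma key (g q : ℕ) (hg : 1 ≤ g) (L : ℕ) (hL : L.Prime) (hbig : (2 * g * (g + 1)) ^ 3 ≤ L) :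
    ∃ w m : ℕ, 0 < w ∧ 0 < m ∧ Nat.gcd w m = 1 ∧ Nat.gcd L m = 1 ∧ Nat.gcd L w = 1 ∧
      (L * g ∉ AddSubmonoid.closure ({w, m} : Set ℕ)) ∧
      (∀ x : ℕ, g < x → L * x ∈ AddSubmonoid.closure ({w, m} : Set ℕ)) ∧
      (∀ x : ℕ, x < g → (∃ k : ℤ, (q : ℤ) * x < g * k ∧ (g : ℤ) * k < (q + 1) * x) →
        L * x ∈ AddSubmonoid.closure ({w, m} : Set ℕ)) := by
  obtain ⟨w, e, hw0, hwL, hdet, hA, hB⟩ := key_int (g : ℤ) (q : ℤ) (L : ℤ)
    (by exact_mod_cast hg) (by exact_mod_cast hbig)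
  obtain ⟨G, hG⟩ : ∃ G : ℤ, G = (g : ℤ) := ⟨_, rfl⟩
  obtain ⟨Q, hQ⟩ : ∃ Q : ℤ, Q = (q : ℤ) := ⟨_, rfl⟩
  obtain ⟨M, hM⟩ : ∃ M : ℤ, M = 2 * G * (G + 1) := ⟨_, rfl⟩
  rw [← hG, ← hQ, ← hM] at hdet
  rw [← hG, ← hM] at hA hB
  have hG1 : 1 ≤ G := by rw [hG]; exact_mod_cast hg
  lift w to ℕ using hw0.le
  have hw0' : 0 < w := by exact_mod_cast hw0
  have hwL' : w < L := by
    have : 2 * w ≤ L := by exact_mod_cast hwL
    omega
  obtain ⟨m, hm⟩ : ∃ m : ℕ, m = g * (2 * g * (g + 1)) := ⟨_, rfl⟩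
  have hm0 : 0 < m := by rw [hm]; positivity
  have hmZ : (m : ℤ) = G * M := by rw [hm, hM, hG]; push_cast; ring
  have hmL : m < L := by
    obtain ⟨N, hN⟩ : ∃ N : ℕ, N = 2 * g * (g + 1) := ⟨_, rfl⟩
    have h5 : g < N := by rw [hN]; nlinarith
    rw [← hN] at hm hbig
    calc m = g * N := hm
      _ < N * N := Nat.mul_lt_mul_of_pos_right h5 (by omega)
      _ ≤ N * N * N := Nat.le_mul_of_pos_right _ (by omega)
      _ = N ^ 3 := by ring
      _ ≤ L := hbig
  have hLm : Nat.Coprime L m := Nat.coprime_of_lt_prime hm0.ne' hmL hL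
  have hLw : Nat.Coprime L w := Nat.coprime_of_lt_prime hw0'.ne' hwL' hL
  rw [← hmZ] at hdet
  have hcoZ : IsCoprime (w : ℤ) (m : ℤ) := by
    have h1 : IsCoprime (L : ℤ) (m : ℤ) := Nat.isCoprime_iff_coprime.mpr hLm
    obtain ⟨a, b, hab⟩ := h1
    refine ⟨-a * (Q * M + 1), a * e + b, ?_⟩
    linear_combination hab + a * hdet
  have hwm : Nat.Coprime w m := Nat.isCoprime_iff_coprime.mp hcoZ
  have hmZ0 : (0 : ℤ) < m := by exact_mod_cast hm0
  have hdetw : e * (m : ℤ) = L + (Q * M + 1) * w := by linarith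
  have hLZ : (0 : ℤ) < L := by exact_mod_cast hL.pos
  refine ⟨w, m, hw0', hm0, hwm, hLm, hLw, ?_, ?_, ?_⟩
  · -- `g` is excluded
    rw [mem_closure_iff]
    rintro ⟨u, v, hu, hv, h⟩
    obtain ⟨n, hn1, hn2⟩ := interval_of_mem (x := G) hmZ0 hdet hcoZ hu hv
      (by rw [h, hG]; push_cast; ring)
    exact excl G Q M m w e L hG1 hw0 hmZ0 hmZ hdetw hA n hn1 hn2
  · intro x hx
    rw [mem_closure_iff]
    have hxG : G + 1 ≤ (x : ℤ) := by rw [hG]; exact_mod_cast hx
    obtain ⟨n, hn1, hn2⟩ := large G (Q * M + 1) M m w e L hG1 hw0 hmZ0 hM hLZ hmZ hdetw hB x hxG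
    obtain ⟨u, v, hu, hv, h⟩ := mem_of_interval (x := (x : ℤ)) (n := n) hdet hn1 hn2
    exact ⟨u, v, hu, hv, by rw [h]; push_cast; ring⟩
  · rintro x hx ⟨k, hk1, hk2⟩
    rw [mem_closure_iff]
    rw [← hQ, ← hG] at hk1 hk2
    have hxG : (x : ℤ) ≤ G := by rw [hG]; exact_mod_cast hx.le
    have hx0 : (0 : ℤ) ≤ x := by positivity
    obtain ⟨hn1, hn2⟩ := small G Q M m w e L hG1 hw0 hmZ0 hM hmZ hdetw hB x k hx0 hxG hk1 hk2
    obtain ⟨u, v, hu, hv, h⟩ := mem_of_interval (x := (x : ℤ)) (n := k) hdet hn1 hn2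
    exact ⟨u, v, hu, hv, by rw [h]; push_cast; ring⟩

/-- The arithmetic heart: for a gap `g`, every `x ∈ T(a,b,c)` with `0 < x < g` satisfies
`q x < g k < (q+1) x` with `q = ⌊a g / b⌋`, `k = ⌊a x / b⌋`. -/
lemma heart (a b c : ℤ) (hb : 0 < b) (hc : 0 ≤ c) (g x : ℤ) (hx0 : 0 < x) (hxg : x < g)
    (hx : (a * x) % b ≤ x - c) (hg : g - c < (a * g) % b) :
    (a * g / b) * x < g * (a * x / b) ∧ g * (a * x / b) < (a * g / b + 1) * x := by
  obtain ⟨q, hq⟩ : ∃ q : ℤ, q = a * g / b := ⟨_, rfl⟩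
  obtain ⟨k, hk⟩ : ∃ k : ℤ, k = a * x / b := ⟨_, rfl⟩
  obtain ⟨r, hr⟩ : ∃ r : ℤ, r = (a * g) % b := ⟨_, rfl⟩
  obtain ⟨t, ht⟩ : ∃ t : ℤ, t = (a * x) % b := ⟨_, rfl⟩
  have h1 : r + b * q = a * g := by rw [hq, hr]; exact Int.emod_add_mul_ediv _ _
  have h2 : t + b * k = a * x := by rw [hk, ht]; exact Int.emod_add_mul_ediv _ _
  have h3 : 0 ≤ t := by rw [ht]; exact Int.emod_nonneg _ hb.ne'
  have h4 : r < b := by rw [hr]; exact Int.emod_lt_of_pos _ hb
  rw [← hq, ← hk]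
  rw [← ht] at hx
  rw [← hr] at hg
  have h5 : b * (g * k - q * x) = r * x - g * t := by linear_combination g * h2 - x * h1
  have h6 : b * ((q + 1) * x - g * k) = x * (b - r) + g * t := by
    linear_combination x * h1 - g * h2
  have h7 : 0 < r * x - g * t := by
    have e1 : (g - c + 1) * x ≤ r * x := mul_le_mul_of_nonneg_right (by linarith) hx0.le
    have e2 : g * t ≤ g * (x - c) := mul_le_mul_of_nonneg_left hx (by linarith)
    have e3 : 0 ≤ c * (g - x) := mul_nonneg hc (by linarith)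
    have e4 : (g - c + 1) * x - g * (x - c) = c * (g - x) + x := by ring
    linarith
  have h8 : 0 < x * (b - r) + g * t := by
    have e1 : 0 < x * (b - r) := mul_pos hx0 (by linarith)
    have e2 : 0 ≤ g * t := mul_nonneg (by linarith) h3
    linarith
  constructor
  · rw [← h5] at h7
    have := (mul_pos_iff_of_pos_left hb).mp h7
    linarith
  · rw [← h6] at h8
    have := (mul_pos_iff_of_pos_left hb).mp h8
    linarith

theorem result (a b c : ℕ) (hb : b ≠ 0) :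
    ∃ S : Set ℕ, (fun x : ℕ => (x : ℤ)) '' S = T a b c ∪ {0} ∧ HasTomsDecomposition S := by
  have hbZ : (0 : ℤ) < b := by exact_mod_cast Nat.pos_of_ne_zero hb
  have hTnonneg : ∀ x ∈ T a b c, 0 ≤ x := by
    intro x hx
    have h1 : ((a : ℤ) * x) % (b : ℤ) ≤ x - (c : ℤ) := hx
    have h2 := Int.emod_nonneg ((a : ℤ) * x) hbZ.ne'
    have h3 : (0 : ℤ) ≤ c := by positivity
    linarith
  obtain ⟨S, hS⟩ : ∃ S : Set ℕ, S = {x : ℕ | (x : ℤ) ∈ T a b c ∪ {0}} := ⟨_, rfl⟩
  refine ⟨S, ?_, ?_⟩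
  · ext x
    constructor
    · rintro ⟨y, hy, rfl⟩
      rw [hS] at hy
      exact hy
    · intro hx
      have hx0 : 0 ≤ x := by
        rcases hx with hx | hx
        · exact hTnonneg x hx
        · exact (show x = 0 from hx).ge
      refine ⟨x.toNat, ?_, Int.toNat_of_nonneg hx0⟩
      rw [hS]
      show ((x.toNat : ℕ) : ℤ) ∈ T a b c ∪ {0}
      rw [Int.toNat_of_nonneg hx0]
      exact hx
  · obtain ⟨N, hN⟩ : ∃ N : ℕ, N = b + c := ⟨_, rfl⟩
    obtain ⟨L, hLbig, hL⟩ := Nat.exists_infinite_primes ((2 * N * (N + 1)) ^ 3)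
    have hmemS : ∀ x : ℕ, x ∈ S ↔ (x = 0 ∨ ((a : ℤ) * x) % (b : ℤ) ≤ (x : ℤ) - (c : ℤ)) := by
      intro x
      rw [hS]
      show ((x : ℤ) ∈ T a b c ∨ (x : ℤ) ∈ ({0} : Set ℤ)) ↔ _
      rw [Set.mem_singleton_iff, or_comm]
      constructor
      · rintro (h | h)
        · left; exact_mod_cast h
        · right; exact h
      · rintro (h | h)
        · left; exact_mod_cast h
        · right; exact h
    have hlargeS : ∀ x : ℕ, N ≤ x → x ∈ S := by
      intro x hx
      rw [hmemS]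
      right
      have h2 := Int.emod_lt_of_pos ((a : ℤ) * x) hbZ
      have h3 : (b : ℤ) + c ≤ x := by rw [hN] at hx; exact_mod_cast hx
      linarith
    have hpair : ∀ i : Fin (N + 1), ∃ p : ℕ × ℕ, 0 < p.1 ∧ 0 < p.2 ∧ Nat.gcd p.1 p.2 = 1 ∧
        Nat.gcd L p.2 = 1 ∧ Nat.gcd L p.1 = 1 ∧
        (∀ x ∈ S, L * x ∈ AddSubmonoid.closure ({p.1, p.2} : Set ℕ)) ∧
        (i.val ∉ S → L * i.val ∉ AddSubmonoid.closure ({p.1, p.2} : Set ℕ)) := by
      intro i
      obtain ⟨g, hg⟩ : ∃ g : ℕ, g = i.val := ⟨_, rfl⟩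
      rw [← hg]
      by_cases hgS : g ∈ S
      · refine ⟨(1, 1), one_pos, one_pos, rfl, Nat.gcd_one_right L, Nat.gcd_one_right L, ?_, ?_⟩
        · intro x _
          rw [mem_closure_iff]
          exact ⟨(L * x : ℕ), 0, by positivity, le_refl 0, by push_cast; ring⟩
        · intro h; exact absurd hgS h
      · have hg1 : 1 ≤ g := by
          rcases Nat.eq_zero_or_pos g with h | h
          · exact absurd ((hmemS g).mpr (Or.inl h)) hgS
          · exact h
        have hgN : g < N := by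
          by_contra hcon
          exact hgS (hlargeS g (not_lt.mp hcon))
        have hgap : (g : ℤ) - c < ((a : ℤ) * g) % (b : ℤ) := by
          by_contra hcon
          exact hgS ((hmemS g).mpr (Or.inr (not_lt.mp hcon)))
        obtain ⟨w, m, h1, h2, h3, h4, h5, h6, h7, h8⟩ := key g (a * g / b) hg1 L hL (by
          refine le_trans ?_ hLbig
          apply Nat.pow_le_pow_left
          have : g ≤ N := hgN.le
          calc 2 * g * (g + 1) ≤ 2 * N * (g + 1) := by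
                apply Nat.mul_le_mul_right; omega
            _ ≤ 2 * N * (N + 1) := by apply Nat.mul_le_mul_left; omega)
        refine ⟨(w, m), h1, h2, h3, h4, h5, ?_, fun _ => h6⟩
        intro x hx
        rcases Nat.lt_trichotomy x g with hxg | hxg | hxg
        · rcases Nat.eq_zero_or_pos x with hx0 | hx0
          · subst hx0
            rw [mul_zero]
            exact AddSubmonoid.zero_mem _
          · apply h8 x hxg
            have hxT : ((a : ℤ) * x) % (b : ℤ) ≤ (x : ℤ) - (c : ℤ) := by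
              rcases (hmemS x).mp hx with h | h
              · omega
              · exact h
            obtain ⟨k1, k2⟩ := heart (a : ℤ) b c hbZ (by positivity) g x (by exact_mod_cast hx0)
              (by exact_mod_cast hxg) hxT hgap
            refine ⟨(a : ℤ) * x / b, ?_, ?_⟩
            · push_cast; exact k1
            · push_cast; exact k2
        · subst hxg; exact absurd hx hgS
        · exact h7 x hxg
    choose p hp using hpair
    refine ⟨L, N + 1, fun i => (p i).1, fun i => (p i).2, hL.pos, Nat.succ_pos N, ?_, ?_⟩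
    · intro i
      obtain ⟨h1, h2, h3, h4, h5, _, _⟩ := hp i
      exact ⟨h1, h2, h3, h4, h5⟩
    · ext x
      rw [Set.mem_ofPred_eq, Set.mem_iInter]
      constructor
      · intro hx i
        exact (hp i).2.2.2.2.2.1 x hx
      · intro hx
        by_contra hxS
        have hxN : x < N + 1 := by
          by_contra hcon
          exact hxS (hlargeS x (by omega))
        exact (hp ⟨x, hxN⟩).2.2.2.2.2.2 hxS (hx ⟨x, hxN⟩)

end Pool.Agent.Results.MP_94066b_nt.TomsContracted
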